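import Pool.Agent.Helper66.LogPoly.Rec

/-!
# Exponential concentration of the logarithm of the partition function
-/

set_option autoImplicit false

namespace Pool.Agent.Helper98.LogPoly.FE

open MeasureTheory ProbabilityTheory Filter Topology
open scoped ENNReal

/-! ### elementary lemmas -/

theorem abs_log_le_add_inv {y : ℝ} (hy : 0 < y) : |Real.log y| ≤ y + y⁻¹ := by
  have h1 := Real.log_le_sub_one_of_pos hy
  have h2 := Real.log_le_sub_one_of_pos (inv_pos.2 hy)
  rw [Real.log_inv] at h2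
  have h3 := inv_pos.2 hy
  exact abs_le.2 ⟨by linarith, by linarith⟩

theorem exp_abs_log_le {y : ℝ} (hy : 0 < y) : Real.exp |Real.log y| ≤ y + y⁻¹ := by
  have h3 := inv_pos.2 hy
  rcases abs_cases (Real.log y) with ⟨h, -⟩ | ⟨h, -⟩
  · rw [h, Real.exp_log hy]; linarith
  · rw [h, Real.exp_neg, Real.exp_log hy]; linarith

theorem exp_le_quad (t : ℝ) : Real.exp t ≤ 1 + t + t ^ 2 * Real.exp |t| := by
  rcases le_total |t| 1 with h | h
  · have h1 := (abs_le.1 (Real.abs_exp_sub_one_sub_id_le h)).2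
    have h2 : 1 ≤ Real.exp |t| := Real.one_le_exp (abs_nonneg t)
    have h3 : t ^ 2 * 1 ≤ t ^ 2 * Real.exp |t| := mul_le_mul_of_nonneg_left h2 (sq_nonneg t)
    linarith
  · have h2 : 1 + |t| ≤ Real.exp |t| := by linarith [Real.add_one_le_exp |t|]
    have h4 : 1 ≤ t ^ 2 := by
      rw [← sq_abs]; nlinarith
    rcases le_total 0 t with h0 | h0
    · rw [abs_of_nonneg h0] at *
      have h5 : 1 * Real.exp t ≤ t ^ 2 * Real.exp t := mul_le_mul_of_nonneg_right h4 (Real.exp_pos t).le
      linarith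
    · have h5 : Real.exp t ≤ 1 := Real.exp_le_one_iff.2 h0
      have h6 : 1 * (1 + |t|) ≤ t ^ 2 * Real.exp |t| := mul_le_mul h4 h2 (by positivity) (by positivity)
      rw [abs_of_nonpos h0] at *
      linarith

theorem sq_le_exp_half (y : ℝ) : y ^ 2 ≤ 8 * Real.exp (|y| / 2) := by
  have h1 := Real.quadratic_le_exp_of_nonneg (show 0 ≤ |y| / 2 by positivity)
  have h2 : (|y| / 2) ^ 2 / 2 = y ^ 2 / 8 := by rw [div_pow, sq_abs]; ring
  rw [h2] at h1
  have h3 := abs_nonneg y
  linarith

theorem exp_mul_le {t y : ℝ} (ht : |t| ≤ 1 / 2) :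
    Real.exp (t * y) ≤ 1 + t * y + 8 * t ^ 2 * Real.exp |y| := by
  have h1 := exp_le_quad (t * y)
  have h2 : |t * y| ≤ |y| / 2 := by
    rw [abs_mul]
    have := mul_le_mul_of_nonneg_right ht (abs_nonneg y)
    linarith
  have h3 : (t * y) ^ 2 * Real.exp |t * y| ≤ (t ^ 2 * (8 * Real.exp (|y| / 2))) * Real.exp (|y| / 2) := by
    refine mul_le_mul ?_ (Real.exp_le_exp.2 h2) (Real.exp_pos _).le (by positivity)
    rw [mul_pow]
    exact mul_le_mul_of_nonneg_left (sq_le_exp_half y) (sq_nonneg t)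
  have h4 : (t ^ 2 * (8 * Real.exp (|y| / 2))) * Real.exp (|y| / 2) = 8 * t ^ 2 * Real.exp |y| := by
    have : Real.exp |y| = Real.exp (|y| / 2) * Real.exp (|y| / 2) := by
      rw [← Real.exp_add]; congr 1; ring
    rw [this]; ring
  linarith

/-- the ratio of two positive combinations -/
theorem ratio_bound {κ : Type} [Fintype κ] [Nonempty κ] {w z : κ → ℝ} (hw : ∀ p, 0 < w p)
    (hz : ∀ p, 0 < z p) :
    Real.exp |Real.log (∑ p, w p * z p) - Real.log (∑ p, w p)| ≤
      ∑ p, w p / (∑ q, w q) * (z p + (z p)⁻¹) := by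
  have hW : 0 < ∑ p, w p := Finset.sum_pos (fun p _ => hw p) Finset.univ_nonempty
  have hR : 0 < ∑ p, w p * z p := Finset.sum_pos (fun p _ => mul_pos (hw p) (hz p)) Finset.univ_nonempty
  rw [← Real.log_div hR.ne' hW.ne']
  refine (exp_abs_log_le (div_pos hR hW)).trans ?_
  have h1 : (∑ p, w p) ^ 2 ≤ (∑ p, w p * z p) * ∑ p, w p * (z p)⁻¹ := by
    refine Finset.sum_sq_le_sum_mul_sum_of_sq_le_mul _ (fun p _ => (mul_pos (hw p) (hz p)).le)
      (fun p _ => (mul_pos (hw p) (inv_pos.2 (hz p))).le) fun p _ => ?_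
    have := (hz p).ne'
    refine le_of_eq ?_
    field_simp
  have h2 : ((∑ p, w p * z p) / ∑ p, w p)⁻¹ ≤ (∑ p, w p * (z p)⁻¹) / ∑ p, w p := by
    rw [inv_div, div_le_div_iff₀ hR hW]
    calc (∑ p, w p) * ∑ p, w p = (∑ p, w p) ^ 2 := by ring
      _ ≤ _ := h1
      _ = _ := by ring
  have h3 : ∑ p, w p / (∑ q, w q) * (z p + (z p)⁻¹) =
      (∑ p, w p * z p) / (∑ p, w p) + (∑ p, w p * (z p)⁻¹) / ∑ p, w p := by
    rw [Finset.sum_div, Finset.sum_div, ← Finset.sum_add_distrib]
    refine Finset.sum_congr rfl fun p _ => ?_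
    ring
  rw [h3]
  linarith

section prob

variable {α : Type*} [MeasurableSpace α] {μ : Measure α} [IsProbabilityMeasure μ]

theorem exp_integral_le {f : α → ℝ} (hf : Integrable f μ) :
    ENNReal.ofReal (Real.exp (∫ x, f x ∂μ)) ≤ ∫⁻ x, ENNReal.ofReal (Real.exp (f x)) ∂μ := by
  by_cases hi : Integrable (fun x => Real.exp (f x)) μ
  · rw [← ofReal_integral_eq_lintegral_ofReal hi (ae_of_all _ fun x => (Real.exp_pos _).le)]
    refine ENNReal.ofReal_le_ofReal ?_
    exact convexOn_exp.map_integral_le Real.continuous_exp.continuousOn isClosed_univ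
      (ae_of_all _ fun x => Set.mem_univ _) hf hi
  · have : ∫⁻ x, ENNReal.ofReal (Real.exp (f x)) ∂μ = ⊤ := by
      by_contra hne
      apply hi
      refine ⟨(Real.continuous_exp.comp_aestronglyMeasurable hf.aestronglyMeasurable), ?_⟩
      rw [hasFiniteIntegral_iff_ofReal (ae_of_all _ fun x => (Real.exp_pos _).le)]
      exact lt_top_iff_ne_top.2 hne
    rw [this]
    exact le_top

omit [IsProbabilityMeasure μ] in
theorem integrable_of_lintegral_ofReal {f : α → ℝ} (hf : AEStronglyMeasurable f μ) (h0 : ∀ x, 0 ≤ f x)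
    (hfin : ∫⁻ x, ENNReal.ofReal (f x) ∂μ ≠ ⊤) : Integrable f μ := by
  refine ⟨hf, ?_⟩
  rw [hasFiniteIntegral_iff_ofReal (ae_of_all _ h0)]
  exact lt_top_iff_ne_top.2 hfin

theorem mgf_bound {D : α → ℝ} (hD : Integrable D μ) {b K : ℝ} (hK0 : 0 ≤ K)
    (hK : ∫⁻ x, ENNReal.ofReal (Real.exp |D x - b|) ∂μ ≤ ENNReal.ofReal K) {t : ℝ}
    (ht : |t| ≤ 1 / 2) :
    ∫⁻ x, ENNReal.ofReal (Real.exp (t * (D x - ∫ y, D y ∂μ))) ∂μ ≤
      ENNReal.ofReal (Real.exp (8 * K * Real.exp K * t ^ 2)) := by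
  have hE : Integrable (fun x => Real.exp |D x - b|) μ := by
    refine integrable_of_lintegral_ofReal ?_ (fun x => (Real.exp_pos _).le) ?_
    · exact Real.continuous_exp.comp_aestronglyMeasurable
        (continuous_abs.comp_aestronglyMeasurable (hD.sub (integrable_const b)).aestronglyMeasurable)
    · exact ne_top_of_le_ne_top ENNReal.ofReal_ne_top hK
  have hEK : ∫ x, Real.exp |D x - b| ∂μ ≤ K := by
    rw [← ofReal_integral_eq_lintegral_ofReal hE (ae_of_all _ fun x => (Real.exp_pos _).le)] at hK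
    exact (ENNReal.ofReal_le_ofReal_iff hK0).1 hK
  have hDb : Integrable (fun x => D x - b) μ := hD.sub (integrable_const b)
  set m : ℝ := ∫ y, D y ∂μ with hm
  have hmb : |m - b| ≤ K := by
    have e1 : m - b = ∫ x, (D x - b) ∂μ := by
      rw [integral_sub hD (integrable_const b)]
      simp [hm]
    rw [e1]
    refine (abs_integral_le_integral_abs).trans (le_trans (integral_mono hDb.abs hE fun x => ?_) hEK)
    have := Real.add_one_le_exp |D x - b|
    show |D x - b| ≤ _
    linarith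
  have hpt : ∀ x, Real.exp (t * (D x - m)) ≤
      1 + t * (D x - m) + 8 * t ^ 2 * (Real.exp K * Real.exp |D x - b|) := by
    intro x
    refine (exp_mul_le ht).trans ?_
    have h1 : Real.exp |D x - m| ≤ Real.exp K * Real.exp |D x - b| := by
      rw [← Real.exp_add]
      refine Real.exp_le_exp.2 ?_
      have : D x - m = (D x - b) - (m - b) := by ring
      rw [this]
      refine (abs_sub _ _).trans ?_
      linarith
    have h2 := mul_le_mul_of_nonneg_left h1 (show 0 ≤ 8 * t ^ 2 by positivity)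
    linarith
  have i0 : Integrable (fun x => D x - m) μ := hD.sub (integrable_const m)
  have i1 : Integrable (fun x => t * (D x - m)) μ := i0.const_mul t
  have i2 : Integrable (fun x => 1 + t * (D x - m)) μ := (integrable_const 1).add i1
  have i3 : Integrable (fun x => 8 * t ^ 2 * (Real.exp K * Real.exp |D x - b|)) μ :=
    (hE.const_mul _).const_mul _
  have hint : Integrable (fun x => 1 + t * (D x - m) + 8 * t ^ 2 * (Real.exp K * Real.exp |D x - b|)) μ :=
    i2.add i3
  have hnn : ∀ x, 0 ≤ 1 + t * (D x - m) + 8 * t ^ 2 * (Real.exp K * Real.exp |D x - b|) :=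
    fun x => (Real.exp_pos _).le.trans (hpt x)
  calc ∫⁻ x, ENNReal.ofReal (Real.exp (t * (D x - m))) ∂μ
      ≤ ∫⁻ x, ENNReal.ofReal (1 + t * (D x - m) + 8 * t ^ 2 * (Real.exp K * Real.exp |D x - b|)) ∂μ :=
        lintegral_mono fun x => ENNReal.ofReal_le_ofReal (hpt x)
    _ = ENNReal.ofReal (∫ x, (1 + t * (D x - m) + 8 * t ^ 2 * (Real.exp K * Real.exp |D x - b|)) ∂μ) :=
        (ofReal_integral_eq_lintegral_ofReal hint (ae_of_all _ hnn)).symm
    _ ≤ _ := by
        refine ENNReal.ofReal_le_ofReal ?_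
        rw [integral_add i2 i3, integral_add (integrable_const 1) i1, integral_const_mul,
          integral_const_mul, integral_const_mul, integral_sub hD (integrable_const m)]
        simp only [integral_const, probReal_univ, smul_eq_mul, one_mul]
        rw [← hm, sub_self, mul_zero, add_zero]
        have h1 : 8 * t ^ 2 * (Real.exp K * ∫ x, Real.exp |D x - b| ∂μ) ≤ 8 * t ^ 2 * (Real.exp K * K) :=
          mul_le_mul_of_nonneg_left (mul_le_mul_of_nonneg_left hEK (Real.exp_pos K).le) (by positivity)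
        have h2 := Real.add_one_le_exp (8 * K * Real.exp K * t ^ 2)
        linarith

end prob

/-! ### integrability of the logarithm -/

section

variable {ν : Measure (Pt → ℝ)} [IsProbabilityMeasure ν] {β K : ℝ} (hG : Good ν β K)
  {ι : Type} [Fintype ι] [Nonempty ι] {c : ι → ℝ} (hc : ∀ i, 0 < c i) (x : ι → Pt) (N : ℕ)

instance : IsProbabilityMeasure (muE ν) := by unfold muE; infer_instance

include hG hc in
theorem integrable_FF : Integrable (FF β N c x) (muE ν) := by
  refine integrable_of_lintegral_ofReal (measurable_FF β N x c).aestronglyMeasurable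
    (fun e => (FF_pos β N x hc e).le) ?_
  unfold FF
  have h1 : ∀ e : ℕ → Pt → ℝ, ENNReal.ofReal (∑ i, c i * WP β N (x i) e) =
      ∑ i, ENNReal.ofReal (c i) * ENNReal.ofReal (WP β N (x i) e) := by
    intro e
    rw [ENNReal.ofReal_sum_of_nonneg (fun i _ => (mul_pos (hc i) (WP_pos _ _ _ _)).le)]
    exact Finset.sum_congr rfl fun i _ => ENNReal.ofReal_mul (hc i).le
  simp only [h1]
  rw [lintegral_finsetSum _ fun i _ => (measurable_WP β N _).ennreal_ofReal.const_mul _]
  refine ENNReal.sum_ne_top.2 fun i _ => ?_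
  rw [lintegral_const_mul _ (measurable_WP β N _).ennreal_ofReal, lintegral_WP hG, mul_one]
  exact ENNReal.ofReal_ne_top

include hG hc in
theorem integrable_FF_inv : Integrable (fun e => (FF β N c x e)⁻¹) (muE ν) := by
  refine integrable_of_lintegral_ofReal (measurable_FF β N x c).inv.aestronglyMeasurable
    (fun e => (inv_pos.2 (FF_pos β N x hc e)).le) ?_
  obtain ⟨i₀⟩ : Nonempty ι := inferInstance
  have h1 : ∀ e : ℕ → Pt → ℝ, ENNReal.ofReal (FF β N c x e)⁻¹ ≤
      ENNReal.ofReal (c i₀)⁻¹ * ENNReal.ofReal (WP β N (x i₀) e)⁻¹ := by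
    intro e
    rw [← ENNReal.ofReal_mul (inv_pos.2 (hc i₀)).le]
    refine ENNReal.ofReal_le_ofReal ?_
    rw [← mul_inv]
    refine inv_anti₀ (mul_pos (hc i₀) (WP_pos _ _ _ _)) ?_
    exact Finset.single_le_sum (f := fun i => c i * WP β N (x i) e)
      (fun i _ => (mul_pos (hc i) (WP_pos _ _ _ _)).le) (Finset.mem_univ i₀)
  refine ne_top_of_le_ne_top ?_ (lintegral_mono h1)
  rw [lintegral_const_mul _ (measurable_WP_inv β N _)]
  refine ENNReal.mul_ne_top ENNReal.ofReal_ne_top (ne_top_of_le_ne_top ?_ (lintegral_WP_inv hG N _))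
  exact ENNReal.pow_ne_top (ENNReal.mul_ne_top ENNReal.ofReal_ne_top ENNReal.ofReal_ne_top)

include hG hc in
theorem integrable_log_FF : Integrable (fun e => Real.log (FF β N c x e)) (muE ν) := by
  refine ((integrable_FF hG hc x N).add (integrable_FF_inv hG hc x N)).mono'
    (Real.measurable_log.comp (measurable_FF β N x c)).aestronglyMeasurable (ae_of_all _ fun e => ?_)
  rw [Real.norm_eq_abs]
  exact abs_log_le_add_inv (FF_pos β N x hc e)

/-- expected logarithm -/
noncomputable def AA (ν : Measure (Pt → ℝ)) (β : ℝ) (N : ℕ) {ι : Type} [Fintype ι] (c : ι → ℝ)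
    (x : ι → Pt) : ℝ := ∫ e, Real.log (FF β N c x e) ∂(muE ν)

include hG hc in
theorem AA_succ : Integrable (fun a => AA ν β N (cN β c x a) (xN x)) ν ∧
    AA ν β (N + 1) c x = ∫ a, AA ν β N (cN β c x a) (xN x) ∂ν := by
  have h1 := integral_consE ν (Real.measurable_log.comp (measurable_FF β (N + 1) x c))
    (integrable_log_FF hG hc x (N + 1))
  simp only [Function.comp_apply, FF_succ] at h1
  exact h1

include hG hc in
theorem one_step (hK : 0 ≤ K) : ∫⁻ a, ENNReal.ofReal (Real.exp |AA ν β N (cN β c x a) (xN x) -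
    AA ν β N (fun p : ι × Fin 4 => c p.1 / 4) (xN x)|) ∂ν ≤ ENNReal.ofReal (1 + K) := by
  have hc4 : ∀ p : ι × Fin 4, 0 < c p.1 / 4 := fun p => div_pos (hc _) (by norm_num)
  set w : (ℕ → Pt → ℝ) → ι × Fin 4 → ℝ := fun e p => c p.1 / 4 * WP β N (xN x p) e with hw
  have hwpos : ∀ e p, 0 < w e p := fun e p => mul_pos (hc4 p) (WP_pos _ _ _ _)
  have hWpos : ∀ e, 0 < ∑ q, w e q := fun e =>
    Finset.sum_pos (fun p _ => hwpos e p) Finset.univ_nonempty
  have hwm : ∀ p, Measurable fun e => w e p := fun p => (measurable_WP β N _).const_mul _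
  have hWm : Measurable fun e => ∑ q, w e q := Finset.measurable_fun_sum _ fun p _ => hwm p
  have hfr : ∀ p, Measurable fun e => ENNReal.ofReal (w e p / ∑ q, w e q) := fun p =>
    ((hwm p).div hWm).ennreal_ofReal
  have hz : ∀ p : ι × Fin 4, Measurable fun a : Pt → ℝ =>
      ENNReal.ofReal (Zf β a (xN x p)) + ENNReal.ofReal (Zf β a (xN x p))⁻¹ := fun p =>
    (measurable_Zf β _).ennreal_ofReal.add (measurable_Zf_inv β _)
  have key : ∀ a : Pt → ℝ, ENNReal.ofReal (Real.exp |AA ν β N (cN β c x a) (xN x) -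
      AA ν β N (fun p : ι × Fin 4 => c p.1 / 4) (xN x)|) ≤
      ∫⁻ e, ∑ p, ENNReal.ofReal (w e p / ∑ q, w e q) * (ENNReal.ofReal (Zf β a (xN x p)) +
        ENNReal.ofReal (Zf β a (xN x p))⁻¹) ∂(muE ν) := by
    intro a
    have i1 := integrable_log_FF hG (cN_pos β x hc a) (xN x) N
    have i2 := integrable_log_FF hG hc4 (xN x) N
    have i3 := i1.sub i2
    have e1 : AA ν β N (cN β c x a) (xN x) - AA ν β N (fun p : ι × Fin 4 => c p.1 / 4) (xN x) =
        ∫ e, (Real.log (FF β N (cN β c x a) (xN x) e) -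
          Real.log (FF β N (fun p : ι × Fin 4 => c p.1 / 4) (xN x) e)) ∂(muE ν) :=
      (integral_sub i1 i2).symm
    rw [e1]
    refine (ENNReal.ofReal_le_ofReal (Real.exp_le_exp.2 abs_integral_le_integral_abs)).trans ?_
    refine (exp_integral_le i3.abs).trans (lintegral_mono fun e => ?_)
    have r1 := ratio_bound (w := w e) (z := fun p => Zf β a (xN x p)) (hwpos e) (fun p => Zf_pos _ _ _)
    have e2 : ∑ p, w e p * Zf β a (xN x p) = FF β N (cN β c x a) (xN x) e := by
      simp only [FF, cN, hw, xN]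
      refine Finset.sum_congr rfl fun p _ => ?_
      ring
    have e3 : ∑ p, w e p = FF β N (fun p : ι × Fin 4 => c p.1 / 4) (xN x) e := rfl
    rw [e2] at r1
    refine (ENNReal.ofReal_le_ofReal (show Real.exp |Real.log (FF β N (cN β c x a) (xN x) e) -
      Real.log (FF β N (fun p : ι × Fin 4 => c p.1 / 4) (xN x) e)| ≤ _ from r1)).trans ?_
    rw [ENNReal.ofReal_sum_of_nonneg]
    · refine le_of_eq (Finset.sum_congr rfl fun p _ => ?_)
      rw [ENNReal.ofReal_mul (div_pos (hwpos e p) (hWpos e)).le, ENNReal.ofReal_add (Zf_pos _ _ _).le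
        (inv_pos.2 (Zf_pos _ _ _)).le]
    · intro p _
      have h1 := div_pos (hwpos e p) (hWpos e)
      have h2 := Zf_pos β a (xN x p)
      have h3 := inv_pos.2 h2
      positivity
  calc ∫⁻ a, ENNReal.ofReal (Real.exp |AA ν β N (cN β c x a) (xN x) -
      AA ν β N (fun p : ι × Fin 4 => c p.1 / 4) (xN x)|) ∂ν
      ≤ ∫⁻ a, ∫⁻ e, ∑ p, ENNReal.ofReal (w e p / ∑ q, w e q) * (ENNReal.ofReal (Zf β a (xN x p)) +
        ENNReal.ofReal (Zf β a (xN x p))⁻¹) ∂(muE ν) ∂ν := lintegral_mono key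
    _ = ∫⁻ e, ∫⁻ a, ∑ p, ENNReal.ofReal (w e p / ∑ q, w e q) * (ENNReal.ofReal (Zf β a (xN x p)) +
        ENNReal.ofReal (Zf β a (xN x p))⁻¹) ∂ν ∂(muE ν) := by
        refine lintegral_lintegral_swap (Measurable.aemeasurable ?_)
        exact Finset.measurable_fun_sum _ fun p _ =>
          ((hfr p).comp measurable_snd).mul ((hz p).comp measurable_fst)
    _ ≤ ∫⁻ e, ENNReal.ofReal (1 + K) ∂(muE ν) := by
        refine lintegral_mono fun e => ?_
        rw [lintegral_finsetSum _ fun p _ => (hz p).const_mul _]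
        calc ∑ p, ∫⁻ a, ENNReal.ofReal (w e p / ∑ q, w e q) * (ENNReal.ofReal (Zf β a (xN x p)) +
            ENNReal.ofReal (Zf β a (xN x p))⁻¹) ∂ν
            ≤ ∑ p, ENNReal.ofReal (w e p / ∑ q, w e q) * ENNReal.ofReal (1 + K) := by
              refine Finset.sum_le_sum fun p _ => ?_
              rw [lintegral_const_mul _ (hz p)]
              refine mul_le_mul_right ?_ _
              rw [lintegral_add_left (measurable_Zf β _).ennreal_ofReal, hG.one,
                ENNReal.ofReal_add (by norm_num) hK, ENNReal.ofReal_one]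
              exact add_le_add_right (hG.inv _) _
          _ = ENNReal.ofReal (1 + K) := by
              rw [← Finset.sum_mul, ← ENNReal.ofReal_sum_of_nonneg
                (fun p _ => (div_pos (hwpos e p) (hWpos e)).le), ← Finset.sum_div,
                div_self (hWpos e).ne', ENNReal.ofReal_one, one_mul]
    _ = ENNReal.ofReal (1 + K) := by simp

end

/-- exponential concentration -/
theorem conc {ν : Measure (Pt → ℝ)} [IsProbabilityMeasure ν] {β K : ℝ} (hG : Good ν β K)
    (hK : 0 ≤ K) {t : ℝ} (ht : |t| ≤ 1 / 2) (N : ℕ) :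
    ∀ (ι : Type) [Fintype ι] [Nonempty ι] (c : ι → ℝ) (x : ι → Pt), (∀ i, 0 < c i) →
    ∫⁻ e, ENNReal.ofReal (Real.exp (t * (Real.log (FF β N c x e) - AA ν β N c x))) ∂(muE ν) ≤
      ENNReal.ofReal (Real.exp (8 * (1 + K) * Real.exp (1 + K) * t ^ 2 * N)) := by
  induction N with
  | zero =>
    intro ι _ _ c x hc
    have h1 : ∀ e, FF β 0 c x e = ∑ i, c i := by intro e; simp [FF, WP]
    have h2 : AA ν β 0 c x = Real.log (∑ i, c i) := by
      unfold AA
      simp only [h1]
      simp
    simp [h1, h2]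
  | succ N ih =>
    intro ι _ _ c x hc
    set C : ℝ := 8 * (1 + K) * Real.exp (1 + K) with hC
    obtain ⟨hi, hA⟩ := AA_succ hG hc x N
    have hm : ∀ (ι : Type) [Fintype ι] [Nonempty ι] (c : ι → ℝ) (x : ι → Pt) (N : ℕ) (s : ℝ),
        Measurable fun e => ENNReal.ofReal (Real.exp (t * (Real.log (FF β N c x e) - s))) := by
      intro ι _ _ c x N s
      exact (Real.measurable_exp.comp (((Real.measurable_log.comp
        (measurable_FF β N x c)).sub_const s).const_mul t)).ennreal_ofReal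
    have h1 := lintegral_consE ν (hm ι c x (N + 1) (AA ν β (N + 1) c x))
    unfold muE at ih ⊢
    rw [h1]
    have h2 : ∀ a : Pt → ℝ, ∫⁻ e, ENNReal.ofReal (Real.exp (t * (Real.log
        (FF β (N + 1) c x (consE a e)) - AA ν β (N + 1) c x))) ∂(Measure.infinitePi fun _ : ℕ => ν) ≤
        ENNReal.ofReal (Real.exp (C * t ^ 2 * N)) * ENNReal.ofReal (Real.exp (t *
          (AA ν β N (cN β c x a) (xN x) - ∫ a, AA ν β N (cN β c x a) (xN x) ∂ν))) := by
      intro a
      have e1 : ∀ e, ENNReal.ofReal (Real.exp (t * (Real.log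
          (FF β (N + 1) c x (consE a e)) - AA ν β (N + 1) c x))) =
          ENNReal.ofReal (Real.exp (t * (Real.log (FF β N (cN β c x a) (xN x) e) -
            AA ν β N (cN β c x a) (xN x)))) * ENNReal.ofReal (Real.exp (t *
          (AA ν β N (cN β c x a) (xN x) - ∫ a, AA ν β N (cN β c x a) (xN x) ∂ν))) := by
        intro e
        rw [← ENNReal.ofReal_mul (Real.exp_pos _).le, ← Real.exp_add, FF_succ, hA]
        congr 2
        ring
      simp only [e1]
      rw [lintegral_mul_const _ (hm _ _ _ _ _)]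
      exact mul_le_mul_left (ih (ι × Fin 4) (cN β c x a) (xN x) (cN_pos β x hc a)) _
    refine (lintegral_mono h2).trans ?_
    rw [lintegral_const_mul'' _ ?_]
    · refine (mul_le_mul_right (mgf_bound hi (by linarith) (one_step hG hc x N hK) ht) _).trans ?_
      rw [← ENNReal.ofReal_mul (Real.exp_pos _).le, ← Real.exp_add]
      refine ENNReal.ofReal_le_ofReal (Real.exp_le_exp.2 (le_of_eq ?_))
      push_cast
      ring
    · have h3 := (Real.continuous_exp.comp_aestronglyMeasurable
        ((hi.sub (integrable_const (∫ a, AA ν β N (cN β c x a) (xN x) ∂ν))).const_mul t).aestronglyMeasurable)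
      exact h3.aemeasurable.ennreal_ofReal

end Pool.Agent.Helper98.LogPoly.FE
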