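import Pool.Agent.Helper66.LogPoly.Limit
import Pool.Agent.Helper82.LogPoly.PLComb

/-!
# Existence of the free energy
-/

set_option autoImplicit false

namespace Pool.Agent.Helper98.LogPoly

open MeasureTheory ProbabilityTheory Filter Topology

theorem exists_free_energy {Ω : Type*} [MeasurableSpace Ω] {P : Measure Ω}
    [IsProbabilityMeasure P] {ω : ℕ → Pt → Ω → ℝ} {h : Pt → ℝ} (hω : IsEnv P ω h)
    (h0 : h 0 = 1) (β : ℝ) :
    ∃ p : ℝ, ∀ᵐ w ∂P, Tendsto (fun N : ℕ => Real.log (WW β N (fun n x => ω n x w)) / N)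
      atTop (𝓝 p) := by
  obtain ⟨p, hp⟩ := FE.exists_free_energy_aux hω h0 β
  refine ⟨p, ?_⟩
  filter_upwards [hp] with w hw
  refine hw.congr fun N => ?_
  rw [WW_eq_EP, FE.EP_wt]

end Pool.Agent.Helper98.LogPoly
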