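import Pool.Agent.Helper98.LogPoly.Defs

/-!
# The law of the environment is a product measure, invariant under translations
-/

set_option autoImplicit false

namespace Pool.Agent.Helper98.LogPoly.FE

open MeasureTheory ProbabilityTheory Filter Topology

section general

variable {Ω : Type*} [MeasurableSpace Ω] {P : Measure Ω} [IsProbabilityMeasure P] {T : Type*}
  [DecidableEq T]

/-- variance of a linear functional of a centred process with given covariances -/
theorem dual_stats {X : T → Ω → ℝ} (hX : IsGaussianProcess X P) {K : T → T → ℝ}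
    (h0 : ∀ t, ∫ w, X t w ∂P = 0) (hK : ∀ s t, ∫ w, X s w * X t w ∂P = K s t) (I : Finset T)
    (L : StrongDual ℝ (I → ℝ)) :
    ∫ w, L (I.restrict (X · w)) ∂P = 0 ∧
      Var[fun w => L (I.restrict (X · w)); P] =
        ∑ i : I, ∑ j : I, L (Pi.single i 1) * L (Pi.single j 1) * K i j := by

  have hL : ∀ w, L (I.restrict (X · w)) = ∑ i : I, L (Pi.single i 1) * X i w := by
    intro w
    have : I.restrict (X · w) = ∑ i : I, (X i w) • (Pi.single i (1 : ℝ) : I → ℝ) := by
      ext j
      simp [Finset.sum_apply, Pi.single_apply, Finset.restrict]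
    rw [this, map_sum]
    refine Finset.sum_congr rfl fun i _ => ?_
    rw [map_smul, smul_eq_mul, mul_comm]
  have hm : ∀ t, MemLp (X t) 2 P := fun t => (hX.hasGaussianLaw_eval t).memLp_two
  have hi : ∀ t, Integrable (X t) P := fun t => (hm t).integrable (by norm_num)
  have hii : ∀ s t, Integrable (fun w => X s w * X t w) P := fun s t => (hm s).integrable_mul (hm t)
  simp only [hL]
  have e0 : ∫ w, ∑ i : I, L (Pi.single i 1) * X i w ∂P = 0 := by
    rw [integral_finsetSum Finset.univ fun (i : I) _ => (hi i).const_mul (L (Pi.single i 1))]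
    refine Finset.sum_eq_zero fun i _ => ?_
    rw [integral_const_mul, h0, mul_zero]
  refine ⟨e0, ?_⟩
  rw [variance_of_integral_eq_zero _ e0]
  · have : ∀ w, (∑ i : I, L (Pi.single i 1) * X i w) ^ 2 =
        ∑ i : I, ∑ j : I, (L (Pi.single i 1) * L (Pi.single j 1)) * (X i w * X j w) := by
      intro w
      rw [sq, Finset.sum_mul_sum]
      refine Finset.sum_congr rfl fun i _ => Finset.sum_congr rfl fun j _ => ?_
      ring
    simp only [this]
    rw [integral_finsetSum _ fun i _ => integrable_finsetSum _ fun j _ => (hii _ _).const_mul _]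
    refine Finset.sum_congr rfl fun i _ => ?_
    rw [integral_finsetSum _ fun j _ => (hii _ _).const_mul _]
    refine Finset.sum_congr rfl fun j _ => ?_
    rw [integral_const_mul, hK]
  · exact (Finset.aemeasurable_fun_sum _ fun i _ => ((hX.aemeasurable _).const_mul _))

/-- two centred Gaussian processes with the same covariances have the same law -/
theorem map_eq_of_cov [Countable T] {X Y : T → Ω → ℝ} (hX : IsGaussianProcess X P)
    (hY : IsGaussianProcess Y P) {K : T → T → ℝ} (hX0 : ∀ t, ∫ w, X t w ∂P = 0)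
    (hY0 : ∀ t, ∫ w, Y t w ∂P = 0) (hXK : ∀ s t, ∫ w, X s w * X t w ∂P = K s t)
    (hYK : ∀ s t, ∫ w, Y s w * Y t w ∂P = K s t) :
    P.map (fun w => (X · w)) = P.map (fun w => (Y · w)) := by
  rw [map_eq_iff_forall_finset_map_restrict_eq (aemeasurable_pi_iff.2 hX.aemeasurable)
    (aemeasurable_pi_iff.2 hY.aemeasurable)]
  intro I
  have h1 := hX.hasGaussianLaw I
  have h2 := hY.hasGaussianLaw I
  have : IsProbabilityMeasure (P.map fun w => I.restrict (X · w)) :=
    Measure.isProbabilityMeasure_map h1.aemeasurable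
  have : IsProbabilityMeasure (P.map fun w => I.restrict (Y · w)) :=
    Measure.isProbabilityMeasure_map h2.aemeasurable
  apply Measure.ext_of_charFunDual
  ext L
  have a1 := dual_stats hX hX0 hXK I L
  have a2 := dual_stats hY hY0 hYK I L
  rw [h1.charFunDual_map_eq_fun, h2.charFunDual_map_eq_fun, a1.1, a1.2, a2.1, a2.2]

end general

section env

variable {Ω : Type*} [MeasurableSpace Ω] {P : Measure Ω} [IsProbabilityMeasure P]
  {ω : ℕ → Pt → Ω → ℝ} {h : Pt → ℝ}

omit [IsProbabilityMeasure P] in
theorem _root_.Pool.Agent.Helper98.LogPoly.IsEnv.fe_slice (hω : IsEnv P ω h) (n : ℕ) (z : Pt) :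
    IsGaussianProcess (fun x : Pt => ω n (x + z)) P :=
  hω.gauss.comp_right (fun x : Pt => (n, x + z))

/-- the law of one slice -/
noncomputable def nuE (P : Measure Ω) (ω : ℕ → Pt → Ω → ℝ) : Measure (Pt → ℝ) :=
  P.map (fun w x => ω 1 x w)

theorem _root_.Pool.Agent.Helper98.LogPoly.IsEnv.fe_map_slice (hω : IsEnv P ω h) (n : ℕ) (z : Pt) :
    P.map (fun w x => ω n (x + z) w) = nuE P ω := by
  have h1 := hω.fe_slice n z
  have h2 := hω.fe_slice 1 0
  simp only [add_zero] at h2
  refine map_eq_of_cov (K := fun x y => h (x - y)) h1 h2 (fun t => hω.mean _ _) (fun t => hω.mean _ _)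
    (fun s t => ?_) (fun s t => ?_)
  · rw [hω.cov, if_pos rfl, add_sub_add_right_eq_sub]
  · rw [hω.cov, if_pos rfl]

omit [IsProbabilityMeasure P] in
theorem _root_.Pool.Agent.Helper98.LogPoly.IsEnv.fe_aemeas (hω : IsEnv P ω h) (n : ℕ) : AEMeasurable (fun w x => ω n x w) P :=
  aemeasurable_pi_iff.2 fun x => hω.gauss.aemeasurable (n, x)

theorem _root_.Pool.Agent.Helper98.LogPoly.IsEnv.fe_isProb (hω : IsEnv P ω h) : IsProbabilityMeasure (nuE P ω) :=
  Measure.isProbabilityMeasure_map (hω.fe_aemeas 1)

/-- the slices are independent, with the same law -/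
theorem _root_.Pool.Agent.Helper98.LogPoly.IsEnv.fe_map_env (hω : IsEnv P ω h) :
    P.map (fun w n x => ω (n + 1) x w) = muE (nuE P ω) := by
  have hg : IsGaussianProcess (fun (p : (_ : ℕ) × Pt) w => ω (p.1 + 1) p.2 w) P :=
    hω.gauss.comp_right (fun p : (_ : ℕ) × Pt => (p.1 + 1, p.2))
  have hi : iIndepFun (fun n w (x : Pt) => ω (n + 1) x w) P := by
    refine IsGaussianProcess.iIndepFun_of_covariance_eq_zero (X := fun n x => ω (n + 1) x) hg
      (fun n x => hω.gauss.aemeasurable (n + 1, x)) ?_
    intro n m hnm x y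
    have h1 := hω.cov (n + 1) (m + 1) x y
    rw [if_neg (by omega)] at h1
    rw [covariance_eq_sub (hω.gauss.hasGaussianLaw_eval (n + 1, x)).memLp_two
      (hω.gauss.hasGaussianLaw_eval (m + 1, y)).memLp_two]
    have h2 := hω.mean (n + 1) x
    simp only [Pi.mul_apply, h1, h2, zero_mul, sub_zero]
  rw [hi.map_fun_eq_infinitePi_map₀' fun n => hω.fe_aemeas (n + 1)]
  unfold muE
  congr 1
  funext n
  have := hω.fe_map_slice (n + 1) 0
  simpa only [add_zero] using this

theorem nuE_shift (hω : IsEnv P ω h) (z : Pt) :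
    (nuE P ω).map (fun a x => a (x + z)) = nuE P ω := by
  have h1 := hω.fe_map_slice 1 z
  conv_rhs => rw [← h1]
  unfold nuE
  rw [AEMeasurable.map_map_of_aemeasurable _ (hω.fe_aemeas 1)]
  · rfl
  · exact Measurable.aemeasurable (by fun_prop)

omit [IsProbabilityMeasure P] in
theorem nuE_eval (hω : IsEnv P ω h) (h0 : h 0 = 1) (x : Pt) :
    (nuE P ω).map (fun a => a x) = gaussianReal 0 1 := by
  unfold nuE
  rw [AEMeasurable.map_map_of_aemeasurable _ (hω.fe_aemeas 1)]
  · have h1 : HasGaussianLaw (ω 1 x) P := hω.gauss.hasGaussianLaw_eval (1, x)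
    have h2 := h1.map_eq_gaussianReal
    have h3 : Var[ω 1 x; P] = 1 := by
      rw [variance_of_integral_eq_zero h1.aemeasurable (hω.mean 1 x)]
      have h4 := hω.cov 1 1 x x
      rw [if_pos rfl, sub_self, h0] at h4
      rw [← h4]
      refine integral_congr_ae (Eventually.of_forall fun w => ?_)
      simp only
      ring
    rw [hω.mean 1 x, h3, Real.toNNReal_one] at h2
    exact h2
  · exact Measurable.aemeasurable (by fun_prop)

end env

end Pool.Agent.Helper98.LogPoly.FE
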