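import Pool.Agent.Helper66.LogPoly.Conc

/-!
# Superadditivity and the almost sure limit on the product space
-/

set_option autoImplicit false

namespace Pool.Agent.Helper98.LogPoly.FE

open MeasureTheory ProbabilityTheory Filter Topology
open scoped ENNReal

section

variable {ν : Measure (Pt → ℝ)} [IsProbabilityMeasure ν] {β K : ℝ} (hG : Good ν β K)

/-- expected logarithm of the partition function -/
noncomputable def aa (ν : Measure (Pt → ℝ)) (β : ℝ) (N : ℕ) : ℝ :=
  AA ν β N (fun _ : Unit => 1) (fun _ => 0)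

omit [IsProbabilityMeasure ν] in
theorem aa_eq (N : ℕ) : aa ν β N = ∫ e, Real.log (WP β N 0 e) ∂(muE ν) := by
  simp [aa, AA, FF]

include hG in
theorem muE_shift (z : Pt) : (muE ν).map (fun e n x => e n (x + z)) = muE ν := by
  unfold muE
  have := Measure.infinitePi_map_pi (fun _ : ℕ => ν) (f := fun _ (a : Pt → ℝ) x => a (x + z))
    (fun _ => by fun_prop)
  rw [this]
  congr 1
  funext n
  exact hG.shift z

include hG in
theorem integral_log_WP (N : ℕ) (y : Pt) : ∫ e, Real.log (WP β N y e) ∂(muE ν) = aa ν β N := by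
  rw [aa_eq]
  have hm : Measurable (fun (e : ℕ → Pt → ℝ) (n : ℕ) (x : Pt) => e n (x + y)) := by fun_prop
  conv_rhs => rw [← muE_shift hG y]
  have hl : AEStronglyMeasurable (fun e => Real.log (WP β N 0 e))
      ((muE ν).map (fun (e : ℕ → Pt → ℝ) (n : ℕ) (x : Pt) => e n (x + y))) :=
    (Real.measurable_log.comp (measurable_WP β N 0)).aestronglyMeasurable
  rw [integral_map hm.aemeasurable hl]
  refine integral_congr_ae (ae_of_all _ fun e => ?_)
  simp only
  rw [← WP_shift, zero_add]

include hG in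
theorem integrable_log_WP (N : ℕ) (y : Pt) : Integrable (fun e => Real.log (WP β N y e)) (muE ν) := by
  have h := integrable_log_FF hG (ι := Unit) (c := fun _ => 1) (fun _ => one_pos) (fun _ => y) N
  simpa [FF] using h

include hG in
theorem integral_WP_eq (N : ℕ) (y : Pt) : Integrable (WP β N y) (muE ν) ∧
    ∫ e, WP β N y e ∂(muE ν) = 1 := by
  have h1 := lintegral_WP hG N y
  have hi : Integrable (WP β N y) (muE ν) :=
    integrable_of_lintegral_ofReal (measurable_WP β N y).aestronglyMeasurable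
      (fun e => (WP_pos β N y e).le) (by rw [h1]; exact ENNReal.one_ne_top)
  refine ⟨hi, ?_⟩
  rw [← ofReal_integral_eq_lintegral_ofReal hi (ae_of_all _ fun e => (WP_pos β N y e).le)] at h1
  have h2 : 0 ≤ ∫ e, WP β N y e ∂(muE ν) := integral_nonneg fun e => (WP_pos β N y e).le
  rw [← ENNReal.ofReal_one] at h1
  exact (ENNReal.ofReal_eq_ofReal_iff h2 zero_le_one).1 h1

include hG in
theorem aa_nonpos (N : ℕ) : aa ν β N ≤ 0 := by
  rw [aa_eq]
  obtain ⟨h1, h2⟩ := integral_WP_eq hG N 0
  have h3 : ∫ e, Real.log (WP β N 0 e) ∂(muE ν) ≤ ∫ e, (WP β N 0 e - 1) ∂(muE ν) :=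
    integral_mono (integrable_log_WP hG N 0) (h1.sub (integrable_const 1))
      fun e => Real.log_le_sub_one_of_pos (WP_pos β N 0 e)
  rw [integral_sub h1 (integrable_const 1), h2] at h3
  simpa using h3

include hG in
theorem superadd_aux (M N : ℕ) : ∀ (ι : Type) [Fintype ι] [Nonempty ι] (c : ι → ℝ) (x : ι → Pt),
    (∀ i, 0 < c i) → AA ν β N c x + aa ν β M ≤ AA ν β (N + M) c x := by
  induction N with
  | zero =>
    intro ι _ _ c x hc
    have hS : 0 < ∑ i, c i := Finset.sum_pos (fun i _ => hc i) Finset.univ_nonempty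
    have h2 : AA ν β 0 c x = Real.log (∑ i, c i) := by
      unfold AA
      simp [FF, WP]
    rw [h2, Nat.zero_add]
    have hpt : ∀ e, Real.log (∑ i, c i) + ∑ i, (c i / ∑ j, c j) * Real.log (WP β M (x i) e) ≤
        Real.log (FF β M c x e) := by
      intro e
      have hj := strictConcaveOn_log_Ioi.concaveOn.le_map_sum (t := Finset.univ)
        (w := fun i => c i / ∑ j, c j) (p := fun i => WP β M (x i) e)
        (fun i _ => (div_pos (hc i) hS).le) (by rw [← Finset.sum_div, div_self hS.ne'])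
        (fun i _ => WP_pos _ _ _ _)
      simp only [smul_eq_mul] at hj
      have e1 : FF β M c x e = (∑ i, c i) * ∑ i, c i / (∑ j, c j) * WP β M (x i) e := by
        rw [Finset.mul_sum]
        unfold FF
        refine Finset.sum_congr rfl fun i _ => ?_
        field_simp
      have h0 : 0 < ∑ i, c i / (∑ j, c j) * WP β M (x i) e :=
        Finset.sum_pos (fun i _ => mul_pos (div_pos (hc i) hS) (WP_pos _ _ _ _)) Finset.univ_nonempty
      rw [e1, Real.log_mul hS.ne' h0.ne']
      linarith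
    have hint : ∀ i : ι, Integrable (fun e => (c i / ∑ j, c j) * Real.log (WP β M (x i) e)) (muE ν) :=
      fun i => (integrable_log_WP hG M (x i)).const_mul _
    have h3 : ∫ e, (Real.log (∑ i, c i) + ∑ i, (c i / ∑ j, c j) * Real.log (WP β M (x i) e)) ∂(muE ν) ≤
        AA ν β M c x :=
      integral_mono ((integrable_const _).add (integrable_finsetSum _ fun i _ => hint i))
        (integrable_log_FF hG hc x M) hpt
    rw [integral_add (integrable_const _) (integrable_finsetSum _ fun i _ => hint i),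
      integral_finsetSum _ fun i _ => hint i] at h3
    simp only [integral_const_mul, integral_log_WP hG] at h3
    rw [← Finset.sum_mul, ← Finset.sum_div, div_self hS.ne', one_mul] at h3
    simpa using h3
  | succ N ih =>
    intro ι _ _ c x hc
    obtain ⟨h1, h2⟩ := AA_succ hG hc x N
    obtain ⟨h3, h4⟩ := AA_succ hG hc x (N + M)
    rw [show N + 1 + M = N + M + 1 by ring, h2, h4]
    have h5 := integral_mono (h1.add (integrable_const (aa ν β M))) h3
      fun a => ih (ι × Fin 4) (cN β c x a) (xN x) (cN_pos β x hc a)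
    rw [integral_add' h1 (integrable_const (aa ν β M))] at h5
    simpa using h5

include hG in
theorem superadd (N M : ℕ) : aa ν β N + aa ν β M ≤ aa ν β (N + M) :=
  superadd_aux hG M N Unit _ _ fun _ => one_pos

include hG in
theorem aa_limit : ∃ p : ℝ, Tendsto (fun N : ℕ => aa ν β N / N) atTop (𝓝 p) := by
  have hs : Subadditive fun N => -aa ν β N := by
    intro m n
    have := superadd hG m n
    linarith
  have hb : BddBelow (Set.range fun n : ℕ => -aa ν β n / n) := by
    refine ⟨0, ?_⟩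
    rintro _ ⟨n, rfl⟩
    exact div_nonneg (by linarith [aa_nonpos hG n]) (Nat.cast_nonneg n)
  refine ⟨-hs.lim, ?_⟩
  have h1 := (hs.tendsto_lim hb).neg
  refine h1.congr fun n => ?_
  ring

end

theorem ae_eventually_lt_one {α : Type*} [MeasurableSpace α] {μ : Measure α} {f : ℕ → α → ℝ≥0∞}
    (hf : ∀ n, AEMeasurable (f n) μ) (hs : ∑' n, ∫⁻ x, f n x ∂μ ≠ ⊤) :
    ∀ᵐ x ∂μ, ∀ᶠ n in atTop, f n x < 1 := by
  rw [← lintegral_tsum hf] at hs
  have h1 := ae_lt_top' (AEMeasurable.tsum hf) hs
  filter_upwards [h1] with x hx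
  exact (ENNReal.tendsto_atTop_zero_of_tsum_ne_top hx.ne).eventually_lt_const one_pos

theorem summable_exp_bound {C t ε : ℝ} (h : C * t ^ 2 < t * ε) :
    ∑' N : ℕ, ENNReal.ofReal (Real.exp (C * t ^ 2 * N - t * ε * N)) ≠ ⊤ := by
  have h1 : ∀ N : ℕ, Real.exp (C * t ^ 2 * N - t * ε * N) = Real.exp (C * t ^ 2 - t * ε) ^ N := by
    intro N
    rw [← Real.exp_nat_mul]
    congr 1
    ring
  simp only [h1]
  have h2 : Real.exp (C * t ^ 2 - t * ε) < 1 := Real.exp_lt_one_iff.2 (by linarith)
  have h3 := summable_geometric_of_lt_one (Real.exp_pos _).le h2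
  rw [← ENNReal.ofReal_tsum_of_nonneg (fun n => pow_nonneg (Real.exp_pos _).le n) h3]
  exact ENNReal.ofReal_ne_top

section

variable {ν : Measure (Pt → ℝ)} [IsProbabilityMeasure ν] {β K : ℝ} (hG : Good ν β K)

include hG in
theorem ae_close (hK : 0 ≤ K) {ε : ℝ} (hε : 0 < ε) :
    ∀ᵐ e ∂(muE ν), ∀ᶠ N : ℕ in atTop, |Real.log (WP β N 0 e) - aa ν β N| ≤ ε * N := by
  set C : ℝ := 8 * (1 + K) * Real.exp (1 + K) with hC
  have hC0 : 0 < C := by positivity
  set t : ℝ := min (1 / 2) (ε / (2 * C)) with ht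
  have ht0 : 0 < t := lt_min (by norm_num) (by positivity)
  have ht1 : t ≤ 1 / 2 := min_le_left _ _
  have ht2 : C * t ^ 2 < t * ε := by
    have h1 : t ≤ ε / (2 * C) := min_le_right _ _
    have h2 : C * t ≤ ε / 2 := by
      calc C * t ≤ C * (ε / (2 * C)) := mul_le_mul_of_nonneg_left h1 hC0.le
        _ = ε / 2 := by field_simp
    nlinarith
  -- one side
  have side : ∀ s : ℝ, |s| = t → ∀ᵐ e ∂(muE ν), ∀ᶠ N : ℕ in atTop,
      s * (Real.log (WP β N 0 e) - aa ν β N) < t * ε * N := by
    intro s hs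
    have hm : ∀ N : ℕ, Measurable fun e => ENNReal.ofReal
        (Real.exp (s * (Real.log (WP β N 0 e) - aa ν β N) - t * ε * N)) := fun N =>
      (Real.measurable_exp.comp ((((Real.measurable_log.comp
        (measurable_WP β N 0)).sub_const _).const_mul s).sub_const _)).ennreal_ofReal
    have h1 : ∀ N : ℕ, ∫⁻ e, ENNReal.ofReal
        (Real.exp (s * (Real.log (WP β N 0 e) - aa ν β N) - t * ε * N)) ∂(muE ν) ≤
        ENNReal.ofReal (Real.exp (C * t ^ 2 * N - t * ε * N)) := by
      intro N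
      have h2 := conc hG hK (t := s) (by rw [hs]; exact ht1) N Unit (fun _ => 1) (fun _ => 0)
        (fun _ => one_pos)
      have e0 : ∀ e, FF β N (fun _ : Unit => (1 : ℝ)) (fun _ => 0) e = WP β N 0 e := by
        intro e; simp [FF]
      simp only [e0] at h2
      have e1 : ∀ e, ENNReal.ofReal (Real.exp (s * (Real.log (WP β N 0 e) - aa ν β N) - t * ε * N)) =
          ENNReal.ofReal (Real.exp (s * (Real.log (WP β N 0 e) - aa ν β N))) *
            ENNReal.ofReal (Real.exp (-(t * ε * N))) := by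
        intro e
        rw [← ENNReal.ofReal_mul (Real.exp_pos _).le, ← Real.exp_add]
        congr 2
      simp only [e1]
      rw [lintegral_mul_const]
      · refine (mul_le_mul_left h2 _).trans ?_
        rw [← ENNReal.ofReal_mul (Real.exp_pos _).le, ← Real.exp_add]
        refine ENNReal.ofReal_le_ofReal (Real.exp_le_exp.2 (le_of_eq ?_))
        have : s ^ 2 = t ^ 2 := by rw [← sq_abs, hs]
        rw [this]
        ring
      · exact (Real.measurable_exp.comp (((Real.measurable_log.comp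
          (measurable_WP β N 0)).sub_const _).const_mul s)).ennreal_ofReal
    have h3 := ae_eventually_lt_one (μ := muE ν) (fun N => (hm N).aemeasurable)
      (ne_top_of_le_ne_top (summable_exp_bound ht2) (ENNReal.tsum_le_tsum h1))
    filter_upwards [h3] with e he
    filter_upwards [he] with N hN
    rw [← ENNReal.ofReal_one, ENNReal.ofReal_lt_ofReal_iff one_pos] at hN
    have := Real.exp_lt_one_iff.1 hN
    linarith
  filter_upwards [side t (abs_of_pos ht0), side (-t) (by rw [abs_neg, abs_of_pos ht0])] with e h1 h2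
  filter_upwards [h1, h2] with N h3 h4
  rw [abs_le]
  constructor
  · by_contra hlt
    push Not at hlt
    have := mul_lt_mul_of_pos_left hlt ht0
    nlinarith
  · by_contra hlt
    push Not at hlt
    have := mul_lt_mul_of_pos_left hlt ht0
    nlinarith

include hG in
theorem ae_limit (hK : 0 ≤ K) : ∃ p : ℝ, ∀ᵐ e ∂(muE ν),
    Tendsto (fun N : ℕ => Real.log (WP β N 0 e) / N) atTop (𝓝 p) := by
  obtain ⟨p, hp⟩ := aa_limit hG
  refine ⟨p, ?_⟩
  have h1 : ∀ᵐ e ∂(muE ν), ∀ k : ℕ, ∀ᶠ N : ℕ in atTop,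
      |Real.log (WP β N 0 e) - aa ν β N| ≤ (1 / ((k : ℝ) + 1)) * N :=
    ae_all_iff.2 fun k => ae_close hG hK (by positivity)
  filter_upwards [h1] with e he
  have h2 : Tendsto (fun N : ℕ => (Real.log (WP β N 0 e) - aa ν β N) / N) atTop (𝓝 0) := by
    rw [Metric.tendsto_atTop]
    intro ε hε
    obtain ⟨k, hk⟩ := exists_nat_one_div_lt hε
    obtain ⟨N₀, hN₀⟩ := eventually_atTop.1 (he k)
    refine ⟨max N₀ 1, fun N hN => ?_⟩
    have hN1 : (0 : ℝ) < N := by
      have : 1 ≤ N := (le_max_right _ _).trans hN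
      exact_mod_cast this
    rw [Real.dist_eq, sub_zero, abs_div, abs_of_pos hN1, div_lt_iff₀ hN1]
    refine (hN₀ N ((le_max_left _ _).trans hN)).trans_lt ?_
    exact mul_lt_mul_of_pos_right hk hN1
  have h3 := h2.add hp
  rw [zero_add] at h3
  refine h3.congr fun N => ?_
  ring

end

/-! ### transfer -/

theorem lintegral_exp_gauss {ν : Measure (Pt → ℝ)} (x : Pt)
    (hx : ν.map (fun a => a x) = gaussianReal 0 1) (t s : ℝ) :
    ∫⁻ a, ENNReal.ofReal (Real.exp (t * a x + s)) ∂ν = ENNReal.ofReal (Real.exp (t ^ 2 / 2 + s)) := by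
  have hm : Measurable fun y : ℝ => ENNReal.ofReal (Real.exp (t * y + s)) := by fun_prop
  have h1 : ∫⁻ a, ENNReal.ofReal (Real.exp (t * a x + s)) ∂ν =
      ∫⁻ y, ENNReal.ofReal (Real.exp (t * y + s)) ∂(gaussianReal 0 1) := by
    rw [← hx, lintegral_map hm (measurable_pi_apply x)]
  rw [h1]
  have h2 : Integrable (fun y : ℝ => Real.exp (t * y)) (gaussianReal 0 1) :=
    integrable_exp_mul_gaussianReal t
  have h3 : Integrable (fun y : ℝ => Real.exp (t * y + s)) (gaussianReal 0 1) := by
    simp only [Real.exp_add]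
    exact h2.mul_const _
  rw [← ofReal_integral_eq_lintegral_ofReal h3 (ae_of_all _ fun y => (Real.exp_pos _).le)]
  congr 1
  have h4 : mgf (fun y : ℝ => y) (gaussianReal 0 1) t = Real.exp (t ^ 2 / 2) := by
    rw [mgf_fun_id_gaussianReal]
    simp
  unfold mgf at h4
  simp only [Real.exp_add]
  rw [integral_mul_const, h4]

variable {Ω : Type*} [MeasurableSpace Ω] {P : Measure Ω} [IsProbabilityMeasure P]
  {ω : ℕ → Pt → Ω → ℝ} {h : Pt → ℝ}

theorem _root_.Pool.Agent.Helper98.LogPoly.IsEnv.fe_good (hω : IsEnv P ω h) (h0 : h 0 = 1) (β : ℝ) :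
    Good (nuE P ω) β (Real.exp (β ^ 2)) := by
  refine ⟨fun x => ?_, fun x => ?_, fun z => nuE_shift hω z⟩
  · have h1 := lintegral_exp_gauss x (nuE_eval hω h0 x) β (-(β ^ 2 / 2))
    rw [add_neg_cancel, Real.exp_zero, ENNReal.ofReal_one] at h1
    unfold Zf
    simpa only [sub_eq_add_neg] using h1
  · have h1 := lintegral_exp_gauss x (nuE_eval hω h0 x) (-β) (β ^ 2 / 2)
    have h2 : ∀ a : Pt → ℝ, (Zf β a x)⁻¹ = Real.exp (-β * a x + β ^ 2 / 2) := by
      intro a
      unfold Zf
      rw [← Real.exp_neg]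
      congr 1
      ring
    simp only [h2, h1]
    refine ENNReal.ofReal_le_ofReal (Real.exp_le_exp.2 ?_)
    rw [neg_sq]
    linarith

theorem exists_free_energy_aux (hω : IsEnv P ω h) (h0 : h 0 = 1) (β : ℝ) :
    ∃ p : ℝ, ∀ᵐ w ∂P, Tendsto (fun N : ℕ => Real.log
      (WP β N 0 (fun n x => ω (n + 1) x w)) / N) atTop (𝓝 p) := by
  have := hω.fe_isProb
  obtain ⟨p, hp⟩ := ae_limit (hω.fe_good h0 β) (Real.exp_pos _).le
  refine ⟨p, ?_⟩
  rw [← hω.fe_map_env] at hp
  exact ae_of_ae_map (aemeasurable_pi_iff.2 fun n => hω.fe_aemeas (n + 1)) hp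

end Pool.Agent.Helper98.LogPoly.FE
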