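import Pool.Agent.Helper66.LogPoly.Law

/-!
# Recursion for the partition functions, first moments, integrability of logarithms
-/

set_option autoImplicit false

namespace Pool.Agent.Helper98.LogPoly.FE

open MeasureTheory ProbabilityTheory Filter Topology
open scoped ENNReal

/-- prepend a slice -/
def consE {X : Type*} (a : X) (e : ℕ → X) : ℕ → X
  | 0 => a
  | n + 1 => e n

theorem measurable_consE {X : Type*} [MeasurableSpace X] :
    Measurable (fun p : X × (ℕ → X) => consE p.1 p.2) := by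
  refine measurable_pi_iff.2 fun n => ?_
  cases n with
  | zero => exact measurable_fst
  | succ n => exact (measurable_pi_apply n).comp measurable_snd

theorem map_consE {X : Type*} [MeasurableSpace X] (ν : Measure X) [IsProbabilityMeasure ν] :
    (ν.prod (Measure.infinitePi fun _ : ℕ => ν)).map (fun p => consE p.1 p.2) =
      Measure.infinitePi fun _ : ℕ => ν := by
  classical
  apply Measure.eq_infinitePi
  intro s t ht
  rw [Measure.map_apply measurable_consE (MeasurableSet.pi s.countable_toSet fun i _ => ht i)]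
  set s' : Finset ℕ := s.preimage Nat.succ Nat.succ_injective.injOn with hs'
  have hpre : (fun p : X × (ℕ → X) => consE p.1 p.2) ⁻¹' (Set.pi s t) =
      (if 0 ∈ s then t 0 else Set.univ) ×ˢ (Set.pi s' fun i => t (i + 1)) := by
    ext ⟨a, e⟩
    simp only [Set.mem_preimage, Set.mem_pi, Set.mem_prod, Finset.mem_coe, hs', Finset.mem_preimage]
    constructor
    · intro h
      refine ⟨?_, fun i hi => h (i + 1) hi⟩
      split_ifs with h0
      · exact h 0 h0
      · trivial
    · rintro ⟨h1, h2⟩ i hi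
      cases i with
      | zero => rw [if_pos hi] at h1; exact h1
      | succ i => exact h2 i hi
  rw [hpre, Measure.prod_prod, Measure.infinitePi_pi _ (fun i _ => ht (i + 1))]
  have hs : s = (if 0 ∈ s then {0} else ∅) ∪ s'.image Nat.succ := by
    ext i
    cases i with
    | zero => by_cases h0 : 0 ∈ s <;> simp [h0]
    | succ i => by_cases h0 : 0 ∈ s <;> simp [h0, hs']
  have hd : Disjoint (if 0 ∈ s then ({0} : Finset ℕ) else ∅) (s'.image Nat.succ) := by
    rw [Finset.disjoint_left]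
    intro i hi hi'
    obtain ⟨j, -, rfl⟩ := Finset.mem_image.1 hi'
    by_cases h0 : 0 ∈ s
    · rw [if_pos h0] at hi
      simp at hi
    · rw [if_neg h0] at hi
      simp at hi
  conv_rhs => rw [hs]
  rw [Finset.prod_union hd, Finset.prod_image (fun _ _ _ _ h => Nat.succ_injective h)]
  congr 1
  by_cases h0 : 0 ∈ s <;> simp [h0]

theorem lintegral_consE {X : Type*} [MeasurableSpace X] (ν : Measure X) [IsProbabilityMeasure ν]
    {f : (ℕ → X) → ℝ≥0∞} (hf : Measurable f) :
    ∫⁻ e, f e ∂(Measure.infinitePi fun _ : ℕ => ν) =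
      ∫⁻ a, ∫⁻ e, f (consE a e) ∂(Measure.infinitePi fun _ : ℕ => ν) ∂ν := by
  conv_lhs => rw [← map_consE ν]
  rw [lintegral_map hf measurable_consE]
  exact lintegral_prod _ (hf.comp measurable_consE).aemeasurable

theorem integral_consE {X : Type*} [MeasurableSpace X] (ν : Measure X) [IsProbabilityMeasure ν]
    {f : (ℕ → X) → ℝ} (hf : Measurable f) (hi : Integrable f (Measure.infinitePi fun _ : ℕ => ν)) :
    Integrable (fun a => ∫ e, f (consE a e) ∂(Measure.infinitePi fun _ : ℕ => ν)) ν ∧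
    ∫ e, f e ∂(Measure.infinitePi fun _ : ℕ => ν) =
      ∫ a, ∫ e, f (consE a e) ∂(Measure.infinitePi fun _ : ℕ => ν) ∂ν := by
  have h1 : Integrable (fun p : X × (ℕ → X) => f (consE p.1 p.2))
      (ν.prod (Measure.infinitePi fun _ : ℕ => ν)) := by
    rw [← map_consE ν] at hi
    exact (integrable_map_measure hf.aestronglyMeasurable measurable_consE.aemeasurable).1 hi
  refine ⟨h1.integral_prod_left, ?_⟩
  conv_lhs => rw [← map_consE ν]
  rw [integral_map measurable_consE.aemeasurable hf.aestronglyMeasurable, integral_prod _ h1]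

/-- the weight of one site -/
noncomputable def Zf (β : ℝ) (a : Pt → ℝ) (x : Pt) : ℝ := Real.exp (β * a x - β ^ 2 / 2)

theorem Zf_pos (β : ℝ) (a : Pt → ℝ) (x : Pt) : 0 < Zf β a x := Real.exp_pos _

theorem measurable_Zf (β : ℝ) (x : Pt) : Measurable fun a : Pt → ℝ => Zf β a x := by
  unfold Zf
  fun_prop

/-- point-to-line partition functions, defined recursively -/
noncomputable def WP (β : ℝ) : ℕ → Pt → (ℕ → Pt → ℝ) → ℝ
  | 0, _, _ => 1
  | N + 1, y, e => (1 / 4) * ∑ j : Fin 4, Zf β (e 0) (y + stp j) * WP β N (y + stp j) (fun n => e (n + 1))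

theorem EP_const_mul (k : ℕ) : ∀ (c : ℝ) (F : List Pt → ℝ) (x : Pt),
    EP k (fun l => c * F l) x = c * EP k F x := by
  induction k with
  | zero => intro c F x; rfl
  | succ k ih =>
    intro c F x
    simp only [EP, ih]
    rw [← Finset.mul_sum]
    ring

theorem EP_wt (β : ℝ) (N : ℕ) : ∀ (e : ℕ → Pt → ℝ) (y : Pt),
    EP N (fun l => wt β e l) y = WP β N y e := by
  induction N with
  | zero => intro e y; rfl
  | succ N ih =>
    intro e y
    simp only [EP, WP, wt, EP_const_mul, ih]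
    rfl

theorem WP_pos (β : ℝ) (N : ℕ) : ∀ (y : Pt) (e : ℕ → Pt → ℝ), 0 < WP β N y e := by
  induction N with
  | zero => intro y e; exact one_pos
  | succ N ih =>
    intro y e
    simp only [WP]
    refine mul_pos (by norm_num) (Finset.sum_pos (fun j _ => mul_pos (Zf_pos _ _ _) (ih _ _)) ?_)
    exact Finset.univ_nonempty

theorem measurable_WP (β : ℝ) (N : ℕ) : ∀ y : Pt, Measurable (WP β N y) := by
  induction N with
  | zero => intro y; exact measurable_const
  | succ N ih =>
    intro y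
    simp only [WP]
    refine Measurable.const_mul (Finset.measurable_fun_sum _ fun j _ => Measurable.mul ?_ ?_) _
    · exact (measurable_Zf β _).comp (measurable_pi_apply 0)
    · exact (ih _).comp (measurable_pi_iff.2 fun n => measurable_pi_apply (n + 1))

theorem measurable_WP_inv (β : ℝ) (N : ℕ) (y : Pt) :
    Measurable fun e => ENNReal.ofReal (WP β N y e)⁻¹ :=
  (measurable_WP β N y).inv.ennreal_ofReal

theorem measurable_Zf_inv (β : ℝ) (x : Pt) : Measurable fun a => ENNReal.ofReal (Zf β a x)⁻¹ :=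
  (measurable_Zf β x).inv.ennreal_ofReal

theorem WP_succ_cons (β : ℝ) (N : ℕ) (y : Pt) (a : Pt → ℝ) (e : ℕ → Pt → ℝ) :
    WP β (N + 1) y (consE a e) = (1 / 4) * ∑ j : Fin 4, Zf β a (y + stp j) * WP β N (y + stp j) e := rfl

theorem WP_shift (β : ℝ) (N : ℕ) : ∀ (y z : Pt) (e : ℕ → Pt → ℝ),
    WP β N (y + z) e = WP β N y (fun n x => e n (x + z)) := by
  induction N with
  | zero => intro y z e; rfl
  | succ N ih =>
    intro y z e
    simp only [WP]
    congr 1
    refine Finset.sum_congr rfl fun j _ => ?_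
    have h1 : y + z + stp j = y + stp j + z := by abel
    rw [h1, ih]
    rfl

/-- linear combination of point-to-line partition functions -/
noncomputable def FF (β : ℝ) (N : ℕ) {ι : Type} [Fintype ι] (c : ι → ℝ) (x : ι → Pt)
    (e : ℕ → Pt → ℝ) : ℝ := ∑ i, c i * WP β N (x i) e

/-- the next coefficients -/
noncomputable def cN (β : ℝ) {ι : Type} (c : ι → ℝ) (x : ι → Pt) (a : Pt → ℝ) (p : ι × Fin 4) : ℝ :=
  c p.1 / 4 * Zf β a (x p.1 + stp p.2)

/-- the next positions -/
def xN {ι : Type} (x : ι → Pt) (p : ι × Fin 4) : Pt := x p.1 + stp p.2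

section FF

variable (β : ℝ) (N : ℕ) {ι : Type} [Fintype ι] {c : ι → ℝ} (x : ι → Pt)

theorem FF_succ (c : ι → ℝ) (a : Pt → ℝ) (e : ℕ → Pt → ℝ) :
    FF β (N + 1) c x (consE a e) = FF β N (cN β c x a) (xN x) e := by
  simp only [FF, cN, xN, WP_succ_cons, Fintype.sum_prod_type, Finset.mul_sum]
  refine Finset.sum_congr rfl fun i _ => Finset.sum_congr rfl fun j _ => ?_
  ring

omit [Fintype ι] in
theorem cN_pos (hc : ∀ i, 0 < c i) (a : Pt → ℝ) (p : ι × Fin 4) : 0 < cN β c x a p :=
  mul_pos (div_pos (hc _) (by norm_num)) (Zf_pos _ _ _)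

theorem measurable_FF (c : ι → ℝ) : Measurable (FF β N c x) := by
  unfold FF
  exact Finset.measurable_fun_sum _ fun i _ => (measurable_WP β N _).const_mul _

theorem FF_pos [Nonempty ι] (hc : ∀ i, 0 < c i) (e : ℕ → Pt → ℝ) : 0 < FF β N c x e :=
  Finset.sum_pos (fun i _ => mul_pos (hc i) (WP_pos _ _ _ _)) Finset.univ_nonempty

end FF

/-- assumptions on the law of a slice -/
structure Good (ν : Measure (Pt → ℝ)) (β K : ℝ) : Prop where
  one : ∀ x, ∫⁻ a, ENNReal.ofReal (Zf β a x) ∂ν = 1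
  inv : ∀ x, ∫⁻ a, ENNReal.ofReal (Zf β a x)⁻¹ ∂ν ≤ ENNReal.ofReal K
  shift : ∀ z : Pt, ν.map (fun a x => a (x + z)) = ν

section moments

variable {ν : Measure (Pt → ℝ)} [IsProbabilityMeasure ν] {β K : ℝ} (hG : Good ν β K)

include hG in
theorem lintegral_WP (N : ℕ) : ∀ y : Pt, ∫⁻ e, ENNReal.ofReal (WP β N y e) ∂(muE ν) = 1 := by
  have hpm : IsProbabilityMeasure (muE ν) := by unfold muE; infer_instance
  induction N with
  | zero => intro y; simp [WP]
  | succ N ih =>
    intro y
    unfold muE at ih ⊢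
    rw [lintegral_consE ν (measurable_WP β (N + 1) y).ennreal_ofReal]
    have h1 : ∀ a : Pt → ℝ, ∀ e : ℕ → Pt → ℝ, ENNReal.ofReal (WP β (N + 1) y (consE a e)) =
        ENNReal.ofReal (1 / 4) * ∑ j : Fin 4, ENNReal.ofReal (Zf β a (y + stp j)) *
          ENNReal.ofReal (WP β N (y + stp j) e) := by
      intro a e
      rw [WP_succ_cons, ENNReal.ofReal_mul (by norm_num), ENNReal.ofReal_sum_of_nonneg
        (fun j _ => (mul_pos (Zf_pos _ _ _) (WP_pos _ _ _ _)).le)]
      congr 1
      refine Finset.sum_congr rfl fun j _ => ?_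
      rw [ENNReal.ofReal_mul (Zf_pos _ _ _).le]
    simp only [h1]
    have h2 : ∀ a : Pt → ℝ, ∫⁻ e, ENNReal.ofReal (1 / 4) * ∑ j : Fin 4,
        ENNReal.ofReal (Zf β a (y + stp j)) * ENNReal.ofReal (WP β N (y + stp j) e)
        ∂(Measure.infinitePi fun _ : ℕ => ν) = ENNReal.ofReal (1 / 4) * ∑ j : Fin 4,
        ENNReal.ofReal (Zf β a (y + stp j)) := by
      intro a
      rw [lintegral_const_mul _ (Finset.measurable_fun_sum _ fun j _ =>
        (measurable_WP β N _).ennreal_ofReal.const_mul _)]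
      congr 1
      rw [lintegral_finsetSum _ fun j _ => (measurable_WP β N _).ennreal_ofReal.const_mul _]
      refine Finset.sum_congr rfl fun j _ => ?_
      rw [lintegral_const_mul _ (measurable_WP β N _).ennreal_ofReal, ih, mul_one]
    simp only [h2]
    rw [lintegral_const_mul _ (Finset.measurable_fun_sum _ fun j _ =>
      (measurable_Zf β _).ennreal_ofReal), lintegral_finsetSum _ fun j _ =>
      (measurable_Zf β _).ennreal_ofReal]
    simp only [hG.one, Finset.sum_const, Finset.card_univ, Fintype.card_fin, nsmul_eq_mul, mul_one]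
    rw [show ((4 : ℕ) : ℝ≥0∞) = ENNReal.ofReal 4 by simp, ← ENNReal.ofReal_mul (by norm_num)]
    norm_num

include hG in
theorem lintegral_WP_inv (N : ℕ) : ∀ y : Pt,
    ∫⁻ e, ENNReal.ofReal (WP β N y e)⁻¹ ∂(muE ν) ≤ (ENNReal.ofReal 4 * ENNReal.ofReal K) ^ N := by
  have hpm : IsProbabilityMeasure (muE ν) := by unfold muE; infer_instance
  induction N with
  | zero => intro y; simp [WP]
  | succ N ih =>
    intro y
    unfold muE at ih ⊢
    rw [lintegral_consE ν (measurable_WP_inv β (N + 1) y)]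
    have h1 : ∀ a : Pt → ℝ, ∀ e : ℕ → Pt → ℝ, ENNReal.ofReal (WP β (N + 1) y (consE a e))⁻¹ ≤
        (ENNReal.ofReal 4 * ENNReal.ofReal (Zf β a (y + stp 0))⁻¹) *
          ENNReal.ofReal (WP β N (y + stp 0) e)⁻¹ := by
      intro a e
      rw [← ENNReal.ofReal_mul (by norm_num), ← ENNReal.ofReal_mul
        (mul_nonneg (by norm_num) (inv_nonneg.2 (Zf_pos _ _ _).le))]
      refine ENNReal.ofReal_le_ofReal ?_
      have p1 := Zf_pos β a (y + stp 0)
      have p2 := WP_pos β N (y + stp 0) e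
      rw [show 4 * (Zf β a (y + stp 0))⁻¹ * (WP β N (y + stp 0) e)⁻¹ =
        ((1 / 4) * (Zf β a (y + stp 0) * WP β N (y + stp 0) e))⁻¹ by
          rw [mul_inv, mul_inv]; norm_num; ring]
      refine inv_anti₀ (by positivity) ?_
      rw [WP_succ_cons]
      refine mul_le_mul_of_nonneg_left ?_ (by norm_num)
      exact Finset.single_le_sum (f := fun j => Zf β a (y + stp j) * WP β N (y + stp j) e)
        (fun j _ => (mul_pos (Zf_pos _ _ _) (WP_pos _ _ _ _)).le) (Finset.mem_univ 0)
    calc ∫⁻ a, ∫⁻ e, ENNReal.ofReal (WP β (N + 1) y (consE a e))⁻¹ ∂(Measure.infinitePi fun _ : ℕ => ν) ∂ν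
        ≤ ∫⁻ a, ∫⁻ e, (ENNReal.ofReal 4 * ENNReal.ofReal (Zf β a (y + stp 0))⁻¹) *
          ENNReal.ofReal (WP β N (y + stp 0) e)⁻¹ ∂(Measure.infinitePi fun _ : ℕ => ν) ∂ν :=
          lintegral_mono fun a => lintegral_mono fun e => h1 a e
      _ = ∫⁻ a, (ENNReal.ofReal 4 * ENNReal.ofReal (Zf β a (y + stp 0))⁻¹) *
          ∫⁻ e, ENNReal.ofReal (WP β N (y + stp 0) e)⁻¹ ∂(Measure.infinitePi fun _ : ℕ => ν) ∂ν := by
          refine lintegral_congr fun a => ?_
          rw [lintegral_const_mul _ (measurable_WP_inv β N _)]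
      _ ≤ ∫⁻ a, (ENNReal.ofReal 4 * ENNReal.ofReal (Zf β a (y + stp 0))⁻¹) *
          (ENNReal.ofReal 4 * ENNReal.ofReal K) ^ N ∂ν :=
          lintegral_mono fun a => mul_le_mul_right (ih _) _
      _ = (ENNReal.ofReal 4 * ∫⁻ a, ENNReal.ofReal (Zf β a (y + stp 0))⁻¹ ∂ν) *
          (ENNReal.ofReal 4 * ENNReal.ofReal K) ^ N := by
          rw [lintegral_mul_const _ ((measurable_Zf_inv β _).const_mul _),
            lintegral_const_mul _ (measurable_Zf_inv β _)]
      _ ≤ (ENNReal.ofReal 4 * ENNReal.ofReal K) * (ENNReal.ofReal 4 * ENNReal.ofReal K) ^ N := by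
          gcongr
          exact hG.inv _
      _ = _ := by rw [pow_succ, mul_comm]

end moments

end Pool.Agent.Helper98.LogPoly.FE
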